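import Mathlib

set_option autoImplicit false

namespace Pool.Agent.Results.MP_1d7ced_al.Basis

/-- Action of the state `q` on words. -/
def act {Q A : Type} (δ : Q → A → Q) (lam : Q → Equiv.Perm A) : Q → List A → List A
  | _, [] => []
  | q, a :: w => lam q a :: act δ lam (δ q a) w

/-- The inverse map of `act δ lam q`. -/
def actInv {Q A : Type} (δ : Q → A → Q) (lam : Q → Equiv.Perm A) : Q → List A → List A
  | _, [] => []
  | q, c :: w => (lam q).symm c :: actInv δ lam (δ q ((lam q).symm c)) w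

lemma act_left {Q A : Type} (δ : Q → A → Q) (lam : Q → Equiv.Perm A) (w : List A) :
    ∀ q, actInv δ lam q (act δ lam q w) = w := by
  induction w with
  | nil => intro q; rfl
  | cons a w ih => intro q; simp [act, actInv, ih]

lemma act_right {Q A : Type} (δ : Q → A → Q) (lam : Q → Equiv.Perm A) (w : List A) :
    ∀ q, act δ lam q (actInv δ lam q w) = w := by
  induction w with
  | nil => intro q; rfl
  | cons a w ih => intro q; simp [act, actInv, ih]

/-- The state `q` as a permutation of the words. -/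
def actP {Q A : Type} (δ : Q → A → Q) (lam : Q → Equiv.Perm A) (q : Q) : Equiv.Perm (List A) :=
  ⟨act δ lam q, actInv δ lam q, fun w => act_left δ lam w q, fun w => act_right δ lam w q⟩

/-- The group generated by the transducer. -/
def grp {Q A : Type} (δ : Q → A → Q) (lam : Q → Equiv.Perm A) : Subgroup (Equiv.Perm (List A)) :=
  Subgroup.closure (Set.range (actP δ lam))

lemma tf {G : Type} [Group G] [IsFreeGroup G] (g : G) (n : ℤ) (hn : n ≠ 0) (h : g ^ n = 1) :
    g = 1 := by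
  have := congrArg (IsFreeGroup.toFreeGroup G) h
  rw [map_zpow, map_one] at this
  exact (MulEquiv.map_eq_one_iff _).1 (zpow_left_injective hn (this.trans (one_zpow n).symm))

lemma comm_pow {G : Type} [Group G] [IsFreeGroup G] (a b : G) (ha : a ≠ 1) (hb : b ≠ 1)
    (h : Commute a b) : ∃ m n : ℤ, a ^ m = b ^ n ∧ a ^ m ≠ 1 := by
  classical
  let K := Subgroup.closure ({a, b} : Set G)
  have hc : ∀ x y : K, x * y = y * x := by
    have := Subgroup.isMulCommutative_closure (k := ({a, b} : Set G)) (by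
      rintro x (rfl | rfl) y (rfl | rfl)
      exacts [rfl, h.eq, h.eq.symm, rfl])
    exact fun x y => mul_comm' x y
  have hs : ∀ i j : IsFreeGroup.Generators K, i = j := by
    intro i j
    by_contra hne
    have := congrArg (IsFreeGroup.lift fun k => if k = i then Equiv.swap (0 : Fin 3) 1 else
      Equiv.swap 1 2) (hc (IsFreeGroup.of i) (IsFreeGroup.of j))
    simp only [map_mul, IsFreeGroup.lift_of, if_true, if_neg (Ne.symm hne)] at this
    revert this; decide
  have key : ∃ z : K, ∀ x : K, ∃ n : ℤ, x = z ^ n := by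
    by_cases he : Nonempty (IsFreeGroup.Generators K)
    · obtain ⟨i⟩ := he
      have : (zpowersHom K (IsFreeGroup.of i)).comp
          (IsFreeGroup.lift fun _ => Multiplicative.ofAdd 1) = MonoidHom.id K :=
        IsFreeGroup.ext_hom fun j => by simp [hs i j]
      exact ⟨_, fun x => ⟨_, (DFunLike.congr_fun this x).symm⟩⟩
    · have : (1 : K →* K) = MonoidHom.id K := IsFreeGroup.ext_hom fun j => absurd ⟨j⟩ he
      exact ⟨1, fun x => ⟨0, by simpa using (DFunLike.congr_fun this x).symm⟩⟩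
  obtain ⟨z, hz⟩ := key
  obtain ⟨i, hi⟩ := hz ⟨a, Subgroup.subset_closure (by simp)⟩
  obtain ⟨j, hj⟩ := hz ⟨b, Subgroup.subset_closure (by simp)⟩
  have hi' : a = (z : G) ^ i := congrArg Subtype.val hi
  have hj' : b = (z : G) ^ j := congrArg Subtype.val hj
  refine ⟨j, i, by rw [hi', hj', ← zpow_mul, ← zpow_mul, mul_comm], fun e => ha (tf a j ?_ e)⟩
  rintro rfl
  exact hb (by simpa using hj')

section abs
variable {G A : Type} [Group G] [Fintype A] (ρ : G →* Equiv.Perm A) (s : G → A → G)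
  (smul : ∀ g h x, s (g * h) x = s g (ρ h x) * s h x)
include smul

omit [Fintype A] in
lemma s_one (x : A) : s 1 x = 1 := by simpa using smul 1 1 x

omit [Fintype A] in
lemma s_inv (g : G) (x : A) : s g⁻¹ (ρ g x) = (s g x)⁻¹ := by
  have := smul g⁻¹ g x
  rw [inv_mul_cancel, s_one ρ s smul] at this
  exact eq_inv_of_mul_eq_one_left this.symm

lemma step1 [IsFreeGroup G] (faith : ∀ g, ρ g = 1 → (∀ x, s g x = 1) → g = 1)
    (tr : ∀ x y, ∃ g, ρ g x = y) (g : G) (x : A) (h1 : ρ g x = x) (h2 : s g x = 1) : g = 1 := by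
  classical
  by_contra hg
  let φ : A → ρ.ker →* G := fun y => MonoidHom.mk' (fun k => s k y) fun a b => by
    have : ρ b = 1 := b.2
    simp [smul, this]
  have hp : ∀ n : ℕ, ρ (g ^ n) x = x ∧ s (g ^ n) x = 1 := by
    intro n
    induction n with
    | zero => simp [s_one ρ s smul]
    | succ n ih => rw [pow_succ', smul, map_mul, Equiv.Perm.mul_apply, ih.1, ih.2, h1, h2]; simp
  have h3 : ∀ y, ∃ a : ρ.ker, a ≠ 1 ∧ φ y a = 1 := by
    intro y
    obtain ⟨t, rfl⟩ := tr x y
    have e : ρ (g ^ orderOf (ρ g)) = 1 := by rw [map_pow, pow_orderOf_eq_one]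
    refine ⟨⟨t * g ^ orderOf (ρ g) * t⁻¹, by simp [MonoidHom.mem_ker, e, -map_pow]⟩, fun e' => hg ?_, ?_⟩
    · have e2 : t * g ^ orderOf (ρ g) * t⁻¹ = 1 := congrArg Subtype.val e'
      rw [mul_inv_eq_one, mul_eq_left, ← zpow_natCast] at e2
      exact tf g _ (by exact_mod_cast (orderOf_pos (ρ g)).ne') e2
    · change s (t * g ^ orderOf (ρ g) * t⁻¹) (ρ t x) = 1
      rw [smul, smul, s_inv ρ s smul]
      simp [(hp _).1, (hp _).2, -map_pow]
  have h4 : ∀ F : Finset A, ∃ a : ρ.ker, a ≠ 1 ∧ ∀ y ∈ F, φ y a = 1 := by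
    intro F
    induction F using Finset.induction_on with
    | empty => exact (h3 x).imp fun a h => ⟨h.1, by simp⟩
    | insert y F _ ih =>
      obtain ⟨a, a1, a2⟩ := ih
      obtain ⟨b, b1, b2⟩ := h3 y
      by_cases hc : Commute a b
      · obtain ⟨m, n, e1, e2⟩ := comm_pow a b a1 b1 hc
        refine ⟨a ^ m, e2, fun z hz => ?_⟩
        rcases Finset.mem_insert.1 hz with rfl | hz
        · rw [e1, map_zpow, b2, one_zpow]
        · rw [map_zpow, a2 z hz, one_zpow]
      · refine ⟨a * b * a⁻¹ * b⁻¹, fun e => hc ?_, fun z hz => ?_⟩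
        · rw [mul_inv_eq_one, mul_inv_eq_iff_eq_mul] at e; exact e
        · rcases Finset.mem_insert.1 hz with rfl | hz
          · simp [b2]
          · simp [a2 z hz]
  obtain ⟨a, a1, a2⟩ := h4 Finset.univ
  exact a1 (Subtype.ext (faith a a.2 fun y => a2 y (Finset.mem_univ y)))

omit smul [Fintype A] in
lemma cocycle {ι : Type} (b : FreeGroupBasis ι G) (c : ι × A → ZMod 2) :
    ∃ γ : G → A → ZMod 2, (∀ g h x, γ (g * h) x = γ g (ρ h x) + γ h x) ∧
      ∀ i x, γ (b i) x = c (i, x) := by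
  let e : ι → Equiv.Perm (A × ZMod 2) := fun i =>
    ⟨fun p => (ρ (b i) p.1, p.2 + c (i, p.1)),
      fun p => ((ρ (b i)).symm p.1, p.2 - c (i, (ρ (b i)).symm p.1)), fun p => by simp, fun p => by simp⟩
  let Φ := b.lift e
  have h0 : ∀ i, Φ (b i) = e i := fun i => congrFun (b.lift.symm_apply_apply e) i
  have h1 : ∀ g x t, Φ g (x, t) = (ρ g x, t + (Φ g (x, 0)).2) := by
    intro g
    obtain ⟨w, rfl⟩ := b.repr.symm.surjective g
    induction w using FreeGroup.induction_on with
    | C1 => simp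
    | of i => intro x t; change Φ (b i) _ = (ρ (b i) x, t + (Φ (b i) _).2); simp [h0, e]
    | inv_of i _ =>
      intro x t
      rw [map_inv]
      change Φ (b i)⁻¹ _ = (ρ (b i)⁻¹ x, t + (Φ (b i)⁻¹ _).2)
      rw [map_inv, map_inv, h0]
      exact Prod.ext rfl (by simp [e, Equiv.Perm.inv_def, sub_eq_add_neg])
    | mul u v hu hv =>
      intro x t
      simp only [map_mul, Equiv.Perm.mul_apply]
      rw [hv x t, hv x 0, hu, hu _ (0 + _)]
      simp [add_assoc]
  refine ⟨fun g x => (Φ g (x, 0)).2, fun g h x => ?_, fun i x => by simp [h0, e]⟩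
  simp only [map_mul, Equiv.Perm.mul_apply]
  rw [h1 h, h1 g]
  simp [add_comm]

lemma step2 {ι : Type} [Fintype ι] [Nontrivial ι] (b : FreeGroupBasis ι G)
    (fr : ∀ g x, ρ g x = x → s g x = 1 → g = 1)
    (hb : ∀ i x, s (b i) x = 1 ∨ ∃ j, s (b i) x = b j ∨ s (b i) x = (b j)⁻¹)
    (k : G) (x : A) (hk : s k x = 1) : k = 1 := by
  classical
  let R : Setoid A := ⟨fun x y => ∃ k, ρ k x = y ∧ s k x = 1,
    fun x => ⟨1, by simp, s_one ρ s smul x⟩,
    by rintro x _ ⟨k, rfl, h⟩; exact ⟨k⁻¹, by simp, by rw [s_inv ρ s smul, h, inv_one]⟩,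
    by rintro x _ _ ⟨k, rfl, h⟩ ⟨k', rfl, h'⟩; exact ⟨k' * k, by simp, by rw [smul, h, h', one_mul]⟩⟩
  let β : A → A := fun x => (Quotient.mk R x).out
  have β1 : ∀ x, ∃ k, ρ k (β x) = x ∧ s k (β x) = 1 := fun x => Quotient.mk_out (s := R) x
  have β2 : ∀ k x, s k x = 1 → β (ρ k x) = β x := fun k x h =>
    congrArg Quotient.out (Quotient.sound (s := R) ⟨k, rfl, h⟩).symm
  choose κ κ1 κ2 using β1
  have β3 : ∀ x, β (β x) = β x := fun x => by rw [← β2 _ _ (κ2 x), κ1]
  choose γ γ1 γ2 using cocycle ρ b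
  have γ0 : ∀ c x, γ c 1 x = 0 := fun c x => by simpa using γ1 c 1 1 x
  let f : (ι × A → ZMod 2) → A → ZMod 2 := fun c x => γ c (κ x) (β x)
  let η : (ι × A → ZMod 2) → G → A → ZMod 2 := fun c g x => γ c g x - f c (ρ g x) + f c x
  have η1 : ∀ c g h x, η c (g * h) x = η c g (ρ h x) + η c h x := fun c g h x => by
    simp only [η, γ1, map_mul, Equiv.Perm.mul_apply]; ring
  have η2 : ∀ c k x, s k x = 1 → η c k x = 0 := by
    intro c k x h
    have e : (κ (ρ k x))⁻¹ * (k * κ x) = 1 := by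
      have e1 := κ1 (ρ k x)
      have e2 := κ2 (ρ k x)
      rw [β2 k x h] at e1 e2
      refine fr _ (β x) ?_ ?_
      · simp only [map_mul, map_inv, Equiv.Perm.mul_apply, κ1]
        rw [Equiv.Perm.inv_eq_iff_eq, e1]
      · rw [smul, smul, map_mul, Equiv.Perm.mul_apply, κ1, κ2, h]
        conv_lhs => congr; congr; rfl; rw [← e1]
        rw [s_inv ρ s smul, e2]; simp
    simp only [η, f]
    rw [eq_of_inv_mul_eq_one e, β2 k x h, γ1, κ1]; ring
  have η3 : ∀ c g g' x x', β x = β x' → s g x = s g' x' → η c g x = η c g' x' := by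
    intro c g g' x x' h1 h2
    obtain ⟨k, rfl, hk⟩ : R.r x x' := Quotient.exact (Quotient.out_injective h1)
    have e1 := η1 c (g' * k * g⁻¹) g x
    rw [η2 c (g' * k * g⁻¹) _ (by
      rw [smul, smul, s_inv ρ s smul]; simp [hk, h2]), inv_mul_cancel_right, η1, η2 c k x hk] at e1
    simpa using e1.symm
  let Ψ : (ι × A → ZMod 2) → ({x // β x = x} × ι → ZMod 2) × ({x // ¬ β x = x} → ZMod 2) :=
    fun c => (fun p => if h : ∃ z : G × A, β z.2 = p.1 ∧ s z.1 z.2 = b p.2 then
      η c h.choose.1 h.choose.2 else 0, fun x => f c x)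
  have Ψ1 : ∀ c g x j, s g x = b j → η c g x = (Ψ c).1 (⟨β x, β3 x⟩, j) := by
    intro c g x j h
    have h' : ∃ z : G × A, β z.2 = β x ∧ s z.1 z.2 = b j := ⟨(g, x), rfl, h⟩
    simp only [Ψ, dif_pos h']
    exact η3 c _ _ _ _ h'.choose_spec.1.symm (h.trans h'.choose_spec.2.symm)
  have inj : Function.Injective Ψ := by
    intro c c' e
    have e1 : ∀ x, f c x = f c' x := by
      intro x
      by_cases hx : β x = x
      · have : κ x = 1 := fr _ x (by simpa [hx] using κ1 x) (by simpa [hx] using κ2 x)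
        simp only [f, this, γ0]
      · exact congrFun (congrArg Prod.snd e) ⟨x, hx⟩
    funext ⟨i, x⟩
    have e2 : η c (b i) x = η c' (b i) x := by
      rcases hb i x with h | ⟨j, h | h⟩
      · rw [η2 _ _ _ h, η2 _ _ _ h]
      · rw [Ψ1 _ _ _ _ h, Ψ1 _ _ _ _ h, e]
      · have h' : s (b i)⁻¹ (ρ (b i) x) = b j := by rw [s_inv ρ s smul, h, inv_inv]
        have e3 : ∀ c, η c (b i)⁻¹ (ρ (b i) x) + η c (b i) x = 0 := fun c => by
          rw [← η1, inv_mul_cancel, η2 _ _ _ (s_one ρ s smul x)]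
        have e4 := (e3 c).trans (e3 c').symm
        rw [Ψ1 _ _ _ _ h', Ψ1 _ _ _ _ h', e] at e4
        exact add_left_cancel e4
    simpa only [η, γ2, e1, add_left_inj, sub_left_inj] using e2
  have h1 := Fintype.card_le_of_injective Ψ inj
  simp only [Fintype.card_prod, Fintype.card_fun, ZMod.card, ← pow_add] at h1
  have h2 := (Nat.pow_le_pow_iff_right one_lt_two).1 h1
  have h3 := Fintype.card_subtype_compl fun x => β x = x
  have h4 := Fintype.card_subtype_le fun x => β x = x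
  have h5 := Fintype.one_lt_card (α := ι)
  have h6 : Fintype.card {x // ¬ β x = x} = 0 := by
    obtain ⟨n, hn⟩ := Nat.exists_eq_add_of_le h4
    rw [h3, hn] at h2 ⊢
    rw [Nat.add_sub_cancel_left] at h2 ⊢
    nlinarith
  have h7 : ∀ x, β x = x := fun x => by
    by_contra h
    exact (Fintype.card_eq_zero_iff.1 h6).false ⟨x, h⟩
  exact fr k x (by rw [← h7 (ρ k x), β2 k x hk, h7]) hk

end abs

theorem result (Q A : Type) [Fintype Q] [Fintype A] (δ : Q → A → Q) (lam : Q → Equiv.Perm A)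
    (ι : Type) [Nontrivial ι] (b : FreeGroupBasis ι (grp δ lam))
    (hQ : ∀ q, actP δ lam q = 1 ∨ ∃ i, actP δ lam q = b i ∨ actP δ lam q = (b i)⁻¹)
    (hred : Function.Injective (actP δ lam))
    (htr : ∀ x y : A, ∃ g ∈ grp δ lam, g [x] = [y]) :
    (∀ a : A, Function.Bijective fun q => δ q a) ∧
      ∀ c : A, Function.Bijective fun q => δ q ((lam q).symm c) := by
  classical
  have := b.isFreeGroup
  have mem : ∀ q, actP δ lam q ∈ grp δ lam := fun q => Subgroup.subset_closure ⟨q, rfl⟩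
  have h0 : ∀ g ∈ grp δ lam, g [] = [] ∧ ∃ σ : Equiv.Perm A, ∀ x, ∃ h ∈ grp δ lam,
      ∀ w, g (x :: w) = σ x :: h w := by
    intro g hg
    induction hg using Subgroup.closure_induction with
    | mem g hg =>
      obtain ⟨q, rfl⟩ := hg
      exact ⟨rfl, lam q, fun x => ⟨_, mem (δ q x), fun w => rfl⟩⟩
    | one => exact ⟨rfl, 1, fun x => ⟨1, one_mem _, fun w => rfl⟩⟩
    | mul g g' _ _ h h' =>
      obtain ⟨a1, σ, a2⟩ := h
      obtain ⟨b1, σ', b2⟩ := h'
      refine ⟨by simp [a1, b1], σ * σ', fun x => ?_⟩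
      obtain ⟨u, c1, c2⟩ := b2 x
      obtain ⟨v, c3, c4⟩ := a2 (σ' x)
      exact ⟨v * u, mul_mem c3 c1, fun w => by simp [c2, c4]⟩
    | inv g _ h =>
      obtain ⟨a1, σ, a2⟩ := h
      refine ⟨by rw [Equiv.Perm.inv_eq_iff_eq, a1], σ⁻¹, fun x => ?_⟩
      obtain ⟨u, c1, c2⟩ := a2 (σ⁻¹ x)
      exact ⟨u⁻¹, inv_mem c1, fun w => by rw [Equiv.Perm.inv_eq_iff_eq, c2]; simp⟩
  have h1 : ∀ g : grp δ lam, ∃ σ : Equiv.Perm A, ∀ x, ∃ h : grp δ lam,
      ∀ w, g.1 (x :: w) = σ x :: h.1 w := fun g => by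
    obtain ⟨-, σ, h⟩ := h0 g.1 g.2
    exact ⟨σ, fun x => by obtain ⟨u, c1, c2⟩ := h x; exact ⟨⟨u, c1⟩, c2⟩⟩
  choose σ s hs using h1
  have uq : ∀ (g h : grp δ lam) x y, (∀ w, g.1 (x :: w) = y :: h.1 w) → σ g x = y ∧ s g x = h :=
    fun g h x y e => ⟨(List.cons.inj ((hs g x []).symm.trans (e []))).1,
      Subtype.ext (Equiv.ext fun w => (List.cons.inj ((hs g x w).symm.trans (e w))).2)⟩
  have hm : ∀ g h x, σ (g * h) x = σ g (σ h x) ∧ s (g * h) x = s g (σ h x) * s h x :=
    fun g h x => uq _ _ _ _ fun w => by simp [hs]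
  let ρ : grp δ lam →* Equiv.Perm A := MonoidHom.mk' σ fun g h => Equiv.ext fun x => (hm g h x).1
  have smul : ∀ g h x, s (g * h) x = s g (ρ h x) * s h x := fun g h x => (hm g h x).2
  let st : Q → grp δ lam := fun q => ⟨_, mem q⟩
  have hst : ∀ q x, ρ (st q) x = lam q x ∧ s (st q) x = st (δ q x) := fun q x =>
    uq _ _ _ _ fun w => rfl
  have hQ' : ∀ q, st q = 1 ∨ ∃ i, st q = b i ∨ st q = (b i)⁻¹ := fun q =>
    (hQ q).imp Subtype.ext fun ⟨i, h⟩ => ⟨i, h.imp Subtype.ext Subtype.ext⟩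
  have fr := step1 ρ s smul (fun g e1 e2 => Subtype.ext (Equiv.ext fun w => by
      cases w with
      | nil => exact (h0 g.1 g.2).1
      | cons x w => rw [hs, e2, show σ g = 1 from e1]; rfl)) fun x y => by
    obtain ⟨g, hg, e⟩ := htr x y
    exact ⟨⟨g, hg⟩, (List.cons.inj ((hs ⟨g, hg⟩ x []).symm.trans e)).1⟩
  have hi : ∀ i, ∃ q, b i = st q ∨ b i = (st q)⁻¹ := by
    intro i
    by_contra hc
    push Not at hc
    let e : ι → Multiplicative ℤ := fun j => if j = i then Multiplicative.ofAdd 1 else 1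
    have e1 : ∀ j, b.lift e (b j) = e j := fun j => congrFun (b.lift.symm_apply_apply e) j
    have e2 : ∀ g (hg : g ∈ grp δ lam), b.lift e ⟨g, hg⟩ = 1 := by
      intro g hg
      induction hg using Subgroup.closure_induction with
      | mem g hg =>
        obtain ⟨q, rfl⟩ := hg
        change b.lift e (st q) = 1
        rcases hQ' q with h | ⟨j, h | h⟩
        · rw [h, map_one]
        · rw [h, e1]; exact if_neg fun e => (hc q).1 (by rw [h, e])
        · rw [h, map_inv, e1, inv_eq_one]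
          exact if_neg fun e => (hc q).2 (by rw [h, inv_inv, e])
      | one => exact map_one _
      | mul g g' hg hg' h h' => exact (map_mul _ (⟨g, hg⟩ : grp δ lam) ⟨g', hg'⟩).trans (by rw [h, h', one_mul])
      | inv g hg h => exact (map_inv _ (⟨g, hg⟩ : grp δ lam)).trans (by rw [h, inv_one])
    have := (e1 i).symm.trans (e2 _ (b i).2)
    simp [e] at this
  have : Finite (Set.range b) :=
    ((Set.finite_range st).union (Set.finite_range fun q => (st q)⁻¹)).subset (by
      rintro _ ⟨i, rfl⟩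
      obtain ⟨q, h | h⟩ := hi i
      exacts [Or.inl ⟨q, h.symm⟩, Or.inr ⟨q, h.symm⟩])
  have : Finite ι := Finite.of_injective_finite_range b.injective
  have := Fintype.ofFinite ι
  have key := step2 ρ s smul b fr fun i x => by
    obtain ⟨q, h | h⟩ := hi i
    · rw [h, (hst q x).2]; exact hQ' _
    · obtain ⟨y, rfl⟩ := (ρ (st q)).surjective x
      rw [h, s_inv ρ s smul, (hst q y).2]
      rcases hQ' (δ q y) with h | ⟨j, h | h⟩
      · exact Or.inl (by rw [h, inv_one])
      · exact Or.inr ⟨j, Or.inr (by rw [h])⟩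
      · exact Or.inr ⟨j, Or.inl (by rw [h, inv_inv])⟩
  refine ⟨fun a => Finite.injective_iff_bijective.1 fun q q' e => hred ?_,
    fun c => Finite.injective_iff_bijective.1 fun q q' e => hred ?_⟩
  · have := key (st q' * (st q)⁻¹) (ρ (st q) a) (by
      rw [smul, s_inv ρ s smul]
      simp [(hst _ _).2, show δ q a = δ q' a from e])
    exact congrArg Subtype.val (mul_inv_eq_one.1 this).symm
  · have := key ((st q')⁻¹ * st q) ((lam q).symm c) (by
      have e1 : ρ (st q) ((lam q).symm c) = ρ (st q') ((lam q').symm c) := by simp [(hst _ _).1]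
      rw [smul, e1, s_inv ρ s smul, (hst _ _).2, (hst _ _).2,
        show δ q ((lam q).symm c) = δ q' ((lam q').symm c) from e, inv_mul_cancel])
    exact congrArg Subtype.val (inv_mul_eq_one.1 this).symm

end Pool.Agent.Results.MP_1d7ced_al.Basis
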